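import Pool.Agent.H929.BW.Stm

/-! # BW: S_NODE and S_STARTE (helper94 for helper929) -/

set_option autoImplicit false

namespace Pool.Agent.H929.BW

open Finset Pool.Agent.TH3.IR Pool.Agent.Y55.Col

/-- the induction over the coordinates which are not treated -/
theorem nodeE_ind {ι : Type} {n : ℕ} {w : ι → ℕ} {ρ β W : ℝ} (hρ : 2 ≤ ρ) (hβ : 0 < β)
    (hfin : Asm.Good (σ := Fin n) w (ρ ^ n * W) (fun _ => ρ ^ (n + 1) * β)) (m : ℕ) :
    ∀ T : Finset (Fin n), T.card + m = n → 5 / 2 ≤ ρ ^ T.card * β →
      Asm.Good w (ρ ^ T.card * W)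
        (fun i => if i ∈ T then ρ ^ (T.card + 1) * β else ρ ^ T.card * β) := by
  have hρ1 : 1 ≤ ρ := by linarith
  have hρ0 : 0 < ρ := by linarith
  induction m with
  | zero =>
    intro T hT _
    have hTu : T = univ := (Finset.card_eq_iff_eq_univ T).1 (by rw [Fintype.card_fin]; omega)
    intro L R μ ν hμ hν hW hs
    apply hfin L R μ ν hμ hν
    · rw [hW, show T.card = n by omega]
    · intro i
      have hiT : i ∈ T := by rw [hTu]; exact mem_univ i
      rw [hs]
      simp only [if_pos hiT]
      rw [show T.card = n by omega]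
  | succ m ih =>
    intro T hT h52
    obtain ⟨j, hj⟩ : ∃ j, j ∉ T := by
      by_contra hcon
      push Not at hcon
      have : T = univ := Finset.eq_univ_iff_forall.2 hcon
      rw [this, Finset.card_univ, Fintype.card_fin] at hT
      omega
    have hc : (insert j T).card = T.card + 1 := Finset.card_insert_of_notMem hj
    have h52' : 5 / 2 ≤ ρ ^ (insert j T).card * β := by
      rw [hc, pow_succ]
      have : ρ ^ T.card * β * 1 ≤ ρ ^ T.card * β * ρ :=
        mul_le_mul_of_nonneg_left hρ1 (by positivity)
      linarith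
    have ih' := ih (insert j T) (by omega) h52'
    apply Asm.nodal (fun hμ hν j hj hpos v hv h => EmpS_flat hμ hν j hj hpos v hv h) (fun hμ hν hpos j hj _ h0 h1 h => EmpS_nodal hμ hν hpos j hj h0 h1 h)
      (ρ := ρ) _ j _ hρ
    · intro L R μ ν hμ hν hW hs
      apply ih' L R μ ν hμ hν
      · rw [hW, hc]
        ring
      · intro i
        rw [hs, hc]
        by_cases hi : i = j
        · subst hi
          simp only [Function.update_self, if_neg hj, if_pos (Finset.mem_insert_self i T)]
          ring
        · simp only [Function.update_of_ne hi]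
          by_cases hiT : i ∈ T
          · simp only [if_pos hiT, if_pos (Finset.mem_insert_of_mem hiT)]
            ring
          · have hiT' : i ∉ insert j T := by rw [Finset.mem_insert]; tauto
            simp only [if_neg hiT, if_neg hiT']
            ring
    · intro i
      split_ifs <;> positivity
    · rw [if_neg hj]
      exact h52

theorem t_NODE : S_NODE := by
  intro ι n w β H ρ hρ hβ h
  have hρ0 : 0 < ρ := by linarith
  have hfin : Asm.Good (σ := Fin n) w (ρ ^ n * (β * H)) (fun _ => ρ ^ (n + 1) * β) := by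
    have e : ρ ^ (n + 1) * β * (H / ρ) = ρ ^ n * (β * H) := by
      rw [pow_succ]; field_simp
    unfold GE at h
    rwa [e] at h
  have h1 := nodeE_ind hρ (by linarith) hfin n ∅ (by simp) (by simpa using hβ)
  unfold GE
  simpa using h1

theorem t_STARTE : S_STARTE := by
  intro ι n w d hn h
  have hfin : Asm.Good (σ := Fin n) w ((3 : ℝ) ^ n * d) (fun _ => 3 ^ (n + 1) * 1) := by
    have e : (3 : ℝ) ^ (n + 1) * ((d : ℝ) / 3) = 3 ^ n * d := by
      rw [pow_succ]; ring
    unfold GE at h
    rw [e] at h
    simpa using h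
  have h1 := nodeE_ind (ρ := 3) (by norm_num) one_pos hfin (n - 1) {⟨0, hn⟩}
    (by rw [Finset.card_singleton]; omega) (by rw [Finset.card_singleton]; norm_num)
  apply Asm.theta (fun hμ hν j hj hpos v hv h => EmpS_flat hμ hν j hj hpos v hv h) (fun d j _ h0 h1 h => EmpS_theta d j h0 h1 h) d
    ⟨0, hn⟩ le_rfl
  intro L R μ ν hμ hν hW hs
  apply h1 L R μ ν hμ hν
  · rw [hW, Finset.card_singleton, pow_one]
  · intro i
    rw [hs, Finset.card_singleton]
    by_cases hi : i = ⟨0, hn⟩
    · subst hi
      simp only [Function.update_self, if_pos (Finset.mem_singleton_self _)]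
      norm_num
    · have hi' : i ∉ ({⟨0, hn⟩} : Finset (Fin n)) := by rw [Finset.mem_singleton]; exact hi
      simp only [Function.update_of_ne hi, if_neg hi', pow_one, mul_one]

end Pool.Agent.H929.BW
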